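import Pool.Agent.H611CV.Final
import Pool.Agent.H611CV.Task1
import Pool.Agent.H611CV.Task2
import Pool.Agent.H611CV.T3
import Pool.Agent.H611CV.Task4
import Pool.Agent.H611CV.Task5
import Pool.Agent.H611CV.Task6

/-!
# `p`-convolvers whose involute is not a `p`-convolver

Let `G` be a group containing a free subgroup on two generators `s, t` and let `1 < p < ∞`,
`p ≠ 2`. Then some `p`-convolver `f` on `G` has an involute `f*(x) = conj f(x⁻¹)` which is not a
`p`-convolver.

Idea: for `f = (1/N) ∑_{i ≤ J, n ≤ N} δ(t^i s t^n)` and `N` large, the norm of `f` on `ℓ^p` is at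
most `2 J^(1/p)` and at least `(J/2)^(1/p)`, whereas the norm of `f*` is at most `2 J^(1-1/p)` and
at least `J^(1-1/p) / 2^(1/p)`.
-/

set_option autoImplicit false

namespace Pool.Agent.Results.MP_830418_an.FreeSubgroup

/-- For every group `G` with a free subgroup on two generators (the image of the injective
homomorphism `φ`) and every real `p > 1` with `p ≠ 2` there is a `p`-convolver `f : G → ℂ` whose
involute `g ↦ conj (f g⁻¹)` is not a `p`-convolver. Both conditions are written exactly as in the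
frozen statement S05239. -/
theorem result :
    ∀ (G : Type) [Group G] (φ : FreeGroup (Fin 2) →* G), Function.Injective φ →
      ∀ p : ℝ, 1 < p → p ≠ 2 →
      ∃ f : G → ℂ,
        (∃ C : ℝ, ∀ ξ : G →₀ ℂ,
          Summable (fun g : G => ‖∑ k ∈ ξ.support, f (g * k⁻¹) * ξ k‖ ^ p) ∧
          ∑' g : G, ‖∑ k ∈ ξ.support, f (g * k⁻¹) * ξ k‖ ^ p
            ≤ C * ∑ k ∈ ξ.support, ‖ξ k‖ ^ p) ∧
        ¬ (∃ C : ℝ, ∀ ξ : G →₀ ℂ,
          Summable (fun g : G =>
            ‖∑ k ∈ ξ.support, starRingEnd ℂ (f ((g * k⁻¹)⁻¹)) * ξ k‖ ^ p) ∧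
          ∑' g : G, ‖∑ k ∈ ξ.support, starRingEnd ℂ (f ((g * k⁻¹)⁻¹)) * ξ k‖ ^ p
            ≤ C * ∑ k ∈ ξ.support, ‖ξ k‖ ^ p) := by
  intro G _ φ hφ p hp hp2
  exact H611CV.final H611CV.task1 H611CV.task2 H611CV.task3 H611CV.task4 H611CV.task5
    H611CV.task6 G φ hφ p hp hp2

end Pool.Agent.Results.MP_830418_an.FreeSubgroup
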